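import Pool.Agent.H208Q.V
import Pool.Agent.H208P.O2
import Pool.Agent.H519R3.RS.LUS

/-!
MP_3029eb_ag: local uniformization for the local rings, of every dimension, of the iterated
quotients of varieties of characteristic `p` by `p`-closed vector fields and automorphisms of order
`p` (in any order) and by a tame abelian group; the vector fields and automorphisms are grouped in
blocks, and the leading forms of each block along a weighted centre are linearly independent
outside the vertex.
-/

set_option autoImplicit false

open AlgebraicGeometry CategoryTheory Pool.Agent.H920R2 Pool.Agent.H519R3.RS Pool.Agent.Y177.Dg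
  Pool.Agent.H208P Pool.Agent.H208Q

namespace Pool.Agent.Results.MP_3029eb_ag.IndependentTowers

/-- Let `B` be a domain over a field `k` of characteristic `p` and `F` a decreasing multiplicative
filtration of `B` by ideals, with `F 0 = B` and `F 1 ≠ 0`, such that the weighted blowup of `F` is
smooth (`Good`; then `B` may be singular), for instance `B` smooth and `F` a regular weighted
centre. Let `B = E 0 ⊇ E 1 ⊇ ... ⊇ E n` be subalgebras such that each `E (m + 1)` is a block
quotient of `C = E m` (`IsBlock`): there are operators `op (δ i)`, `i < r`, on `C`, each of which is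
a vector field `D` or is `σ - 1` for an automorphism `σ` (in any order), such that, for the ring
`S i` of the elements of `C` killed by `op (δ 0), ..., op (δ (i - 1))`,

* `op (δ i)` maps `S i` to itself, and `D` is `p`-closed on `S i`
  (`D ^ p b * D c = D ^ p c * D b`), resp. `σ ^ p = 1` on `S i`;
* `op (δ i)` raises the weights of `F d ∩ C` by some `l i ≥ 0`, with `l i > 0` for automorphisms;
* the zeros of `D`, resp. the fixed points of `σ`, on `S i` lie in the centre: every prime ideal
  of `C` which contains `op (δ i) c` for all `c` in `S i` contains `F 1 ∩ C`;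
* the leading forms of the operators `op (δ i)` are linearly independent at every point outside
  the vertex of the normal cone of the centre in `Spec C`: every `a` in `F d ∩ C`, `d > 0`, has a
  power `a ^ N` in the ideal generated by `F (N * d + 1) ∩ C` and the multiples of the
  determinants of the elements `op (δ i) (c j)`, `c j` in `C` (`detI`); this is a condition on `C`
  and not on the rings `S i`;
* `E (m + 1) = S r`.

So `Spec (E n)` is an iterated quotient of `Spec B` by vector fields and automorphisms of order `p`.
Let `G` be a finite abelian group of order prime to `p` which acts on `E n` over `k` and preserves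
the filtration induced by `F`, such that `k` contains the roots of unity of order the exponent of
`G` (for instance the trivial group), and let `A` be the ring of its invariants.

Then the localization of `A` at an arbitrary prime ideal admits local uniformization. -/
theorem result (p : ℕ) [Fact p.Prime] (k : Type) [Field k] [CharP k p] (B : Type)
    [CommRing B] [IsDomain B] [Algebra k B] (F : ℕ → Ideal B) (hF : IsFilt F) (hne : F 1 ≠ ⊥)
    (hB : Good k hF ∨ (Algebra.Smooth k B ∧ RegularWeightedCentre k F))
    (n : ℕ) (E : ℕ → Subalgebra k B) (hE0 : E 0 = ⊤)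
    (hE : ∀ m < n, IsBlock p F (E m) (E (m + 1)))
    (G : Type) [CommGroup G] [Finite G] (hG : ¬ p ∣ Nat.card G)
    [HasEnoughRootsOfUnity k (Monoid.exponent G)] (θ : G →* (E n ≃ₐ[k] E n))
    (hθ : ∀ g d, ∀ x : E n, (x : B) ∈ F d → (θ g x : B) ∈ F d)
    (A : Subalgebra k (E n)) (hA : ∀ x, x ∈ A ↔ ∀ g, θ g x = x)
    (P : Ideal A) [P.IsPrime] (R : Type) [CommRing R] [IsLocalRing R] [Algebra A R]
    [IsLocalization.AtPrime R P] : AdmitsLU R := by
  have hp : p.Prime := Fact.out
  have hpk : (p : k) = 0 := CharP.cast_eq_zero k p
  have hG' : (Nat.card G : k) ≠ 0 := fun h => hG ((CharP.cast_eq_zero_iff k p _).1 h)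
  have hgood : Good k hF := by
    rcases hB with h | ⟨h1, h2⟩
    · exact h
    · exact good_of_centre hF h2
  obtain ⟨h3, h4⟩ := good_blocks hF hp hpk E hE0 hE hgood hne n le_rfl
  obtain ⟨h1, h2⟩ := concl_ivQ θ (isFilt_restr hF (E n)) hG' h3 h4
    (fun g d x hx => hθ g d x hx)
  let e : ivQ θ ≃ₐ[k] A :=
    AlgEquiv.ofBijective
      (((ivQ θ).val).codRestrict A fun x => (hA _).2 fun g => x.2 g)
      ⟨fun x y hxy => Subtype.ext (congrArg (fun z : A => (z : E n)) hxy), fun y =>
        ⟨⟨y, fun g => (hA _).1 y.2 g⟩, rfl⟩⟩
  exact admitsLU_of_res (hasResolution_congr e h2) P R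

end Pool.Agent.Results.MP_3029eb_ag.IndependentTowers
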