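import Pool.Agent.Helper819.LU.Final

/-!
MP_3029eb_ag: ascent of local uniformization, over arbitrary noetherian domains `A` of
characteristic `p`, to the quotients of `Spec A × 𝔸^m` by the group schemes over the fraction field
of `A` which act by translations, for example by all finite subgroup schemes (infinitesimal, étale
or mixed) of the vector group whose closure is finite over `Spec A`.
-/

set_option autoImplicit false

open MvPolynomial Pool.Agent.W558 Pool.Agent.Helper819.LU

open scoped TensorProduct

universe u

namespace Pool.Agent.Results.MP_3029eb_ag.VectorGroupQuotientsLU

/-- The translation `f (x) ↦ f (x + v)` of the polynomial ring `D[x 0, ..., x (m - 1)]`. -/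
noncomputable def translate {D : Type u} [CommRing D] {m : ℕ} (v : Fin m → D) :
    MvPolynomial (Fin m) D →ₐ[D] MvPolynomial (Fin m) D :=
  aeval fun i => X i + C (v i)

/-- The polynomials `f` in `A[x 0, ..., x (m - 1)]` with `f (x + v) = f (x)` in
`D[x 0, ..., x (m - 1)]`. -/
noncomputable def invariants (A : Type u) {D : Type u} [CommRing A] [CommRing D] [Algebra A D]
    {m : ℕ} (v : Fin m → D) : Subalgebra A (MvPolynomial (Fin m) A) where
  carrier := {f | translate v (MvPolynomial.map (algebraMap A D) f) =
    MvPolynomial.map (algebraMap A D) f}
  mul_mem' := by
    intro f g hf hg
    change translate v (MvPolynomial.map (algebraMap A D) (f * g)) = _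
    rw [map_mul, map_mul, hf, hg]
  add_mem' := by
    intro f g hf hg
    change translate v (MvPolynomial.map (algebraMap A D) (f + g)) = _
    rw [map_add, map_add, hf, hg]
  algebraMap_mem' := by
    intro a
    change translate v (MvPolynomial.map (algebraMap A D) (C a)) =
      MvPolynomial.map (algebraMap A D) (C a)
    rw [MvPolynomial.map_C]
    exact (translate v).commutes _

/-- The local domain `R` admits local uniformization: for every valuation ring `V` of the fraction
field `F` of `R` centred on `R` there is a finitely generated `R`-algebra `B` in `V` whose
localization at the centre `P` of `V` is regular. -/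
def AdmitsLocalUniformization (R : Type u) [CommRing R] : Prop :=
  ∀ (F : Type u) [Field F] [Algebra R F] [IsFractionRing R F] (V : ValuationSubring F),
    (∀ r : R, algebraMap R F r ∈ V) →
    (∀ r : R, r ∈ nonunits R ↔ V.valuation (algebraMap R F r) < 1) →
    ∃ B : Subalgebra R F, B.FG ∧ (∀ b : B, (b : F) ∈ V) ∧
      ∃ P : Ideal B, ∃ (_ : P.IsPrime),
        (∀ b : B, b ∈ P ↔ V.valuation (b : F) < 1) ∧
        IsRegularLocalRing (Localization.AtPrime P)

/-- All local rings of all affine varieties of finite type and birational over `Spec A`, that is,
of all finitely generated `A`-subalgebras of the fraction field of `A`, admit local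
uniformization. -/
def ModificationsAdmitLU (A : Type u) [CommRing A] [IsDomain A] : Prop :=
  ∀ C : Subalgebra A (FractionRing A), C.FG → ∀ (P : Ideal C) [P.IsPrime],
    AdmitsLocalUniformization (Localization.AtPrime P)

/-- `A` is a domain of finite type over a perfect field `k`, of transcendence degree `2`, and its
field of fractions is generated by two elements over `k`, or it is the function field of a smooth
projective surface. -/
def IsSurface (A : Type u) [CommRing A] [IsDomain A] : Prop :=
  ∃ (k : Type u) (_ : Field k) (_ : PerfectField k) (_ : Algebra k A), Algebra.FiniteType k A ∧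
    Algebra.trdeg k (FractionRing A) = 2 ∧
      ((∃ u : Fin 2 → FractionRing A, IntermediateField.adjoin k (Set.range u) = ⊤) ∨
        HasModel k (FractionRing A))

/-- Let `A` be a noetherian domain of characteristic `p` with the field of fractions `K`. Suppose
that all local rings of the finitely generated `A`-subalgebras of `K` admit local uniformization
(this is known for all excellent `A` of dimension at most `3`), or that `A` is the coordinate ring
of an affine surface over a perfect field with a smooth projective model (for example a rational
surface). Let `H = Spec D` be an affine monoid scheme over `K` (for example a group scheme) and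
`v : H ⟶ 𝔾_a^m` a homomorphism, that is, let `v 0, ..., v (m - 1)` be primitive elements of the
bialgebra `D` over `K`. Suppose that the functions `v i` are integral over `A`. Then the local rings
of the quotient of `Spec A × 𝔸^m` by the translations by `H`, that is, of the ring of the `f` in
`A[x]` with `f (x + v) = f (x)`, at all prime ideals `Q`, admit local uniformization. -/
theorem result (p : ℕ) [Fact p.Prime] (A : Type u) [CommRing A] [IsDomain A] [IsNoetherianRing A]
    [CharP A p] (hA : ModificationsAdmitLU A ∨ IsSurface A)
    (D : Type u) [CommRing D] [Bialgebra (FractionRing A) D] [Algebra A D]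
    [IsScalarTower A (FractionRing A) D] (m : ℕ) (v : Fin m → D)
    (hv : ∀ i, Coalgebra.comul (R := FractionRing A) (v i) =
      v i ⊗ₜ[FractionRing A] 1 + 1 ⊗ₜ[FractionRing A] v i)
    (hint : ∀ i, IsIntegral A (v i)) (Q : Ideal (invariants A v)) [Q.IsPrime]
    (R : Type u) [CommRing R] [Algebra (invariants A v) R] [IsLocalization.AtPrime R Q] :
    AdmitsLocalUniformization R := by
  have hchK : CharP (FractionRing A) p := charP_of_injective_algebraMap
    (IsFractionRing.injective A (FractionRing A)) p
  have hall : AllUnif A (FractionRing A) := by
    rcases hA with hA | ⟨k, i1, i2, i3, hft, h2, hw⟩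
    · exact allUnif_of_adm hA
    · have hk : CharP k p := (RingHom.charP_iff (algebraMap k A) (algebraMap k A).injective p).2
        inferInstance
      exact allUnif_surface p (k := k) h2 hw
  have hS : invariants A v = Pool.Agent.Helper819.TR.invT A ({v} : Set (Fin m → D)) := by
    ext f
    rw [Pool.Agent.Helper819.TR.mem_invT]
    constructor
    · intro h w hw
      rw [Set.mem_singleton_iff.1 hw]
      exact h
    · intro h
      exact h v rfl
  exact adm_final (K := FractionRing A) p v hv hint hall hS Q

end Pool.Agent.Results.MP_3029eb_ag.VectorGroupQuotientsLU
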